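import Pool.Agent.Helper88.AD.Stmts

/-!
# Packets ASYM and LOG
-/

namespace Pool.Agent.Helper32.AD

open Pool.Agent.Helper88.AD Filter

theorem log_const : (2.1 : ℝ) ≤ Real.log (100 / 11) := by
  rw [Real.le_log_iff_exp_le (by norm_num)]
  have h1 : Real.exp 2.1 = Real.exp 1 * Real.exp 1 * Real.exp 0.1 := by
    rw [← Real.exp_add, ← Real.exp_add]
    norm_num
  have h2 := Real.exp_one_lt_d9
  have h3 : Real.exp 0.1 ≤ 1 / (1 - 0.1) := by
    have := Real.add_one_le_exp (-0.1 : ℝ)
    rw [Real.exp_neg] at this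
    have hp := Real.exp_pos (0.1 : ℝ)
    rw [le_div_iff₀ (by norm_num)]
    have h4 : (Real.exp 0.1) * (Real.exp 0.1)⁻¹ = 1 := mul_inv_cancel₀ hp.ne'
    nlinarith
  have hp := Real.exp_pos (0.1 : ℝ)
  have hp1 := Real.exp_pos (1 : ℝ)
  rw [h1]
  have h5 : Real.exp 1 * Real.exp 1 ≤ 2.7182818286 * 2.7182818286 := by nlinarith
  calc Real.exp 1 * Real.exp 1 * Real.exp 0.1
      ≤ (2.7182818286 * 2.7182818286) * (1 / (1 - 0.1)) := by
        apply mul_le_mul h5 h3 hp.le (by norm_num)
    _ ≤ 100 / 11 := by norm_num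

/-- The estimate for one `d`. -/
theorem single (D : ℕ → ℕ) (hD : ∀ s d : ℕ, 3 ≤ s → 2 * s ≤ d + 1 →
      ((s - 1) * (s - 2) / 2).choose (d + 1 - 2 * s) ≤ D d) (d : ℕ)
    (hL : 4 ≤ Real.log d) (hd : 22 * Real.log d ^ 2 ≤ d) :
    ((d : ℝ) / (20 * Real.log d ^ 2)) ^ d ≤ (D d : ℝ) := by
  set L := Real.log d with hLdef
  have hL0 : 0 < L := by linarith
  have hdr : (352 : ℝ) ≤ d := by nlinarith
  have hd0 : (0 : ℝ) < d := by linarith
  set c := ⌈(d : ℝ) / L⌉₊ with hc
  have hc1 : (d : ℝ) / L ≤ c := Nat.le_ceil _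
  have hc2 : (c : ℝ) < d / L + 1 := Nat.ceil_lt_add_one (by positivity)
  have hc0 : 1 ≤ c := by
    rw [Nat.one_le_iff_ne_zero, ← Nat.pos_iff_ne_zero]
    exact Nat.ceil_pos.mpr (by positivity)
  have hdL : (d : ℝ) / L ≤ d / 4 := div_le_div_of_nonneg_left hd0.le (by norm_num) hL
  have h2s : 2 * (c + 2) ≤ d + 1 := by
    have : (2 * (c + 2) : ℝ) ≤ d + 1 := by linarith
    exact_mod_cast this
  have hmain := hD (c + 2) d (by omega) h2s
  -- the binomial coefficient
  set n := ((c + 2 - 1) * (c + 2 - 2) / 2) with hn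
  set k := d + 1 - 2 * (c + 2) with hk
  have hkd : k ≤ d := by omega
  have hkr : (k : ℝ) = d - 2 * c - 3 := by
    have : k + 2 * c + 3 = d := by omega
    have h' : (k : ℝ) + 2 * c + 3 = d := by exact_mod_cast this
    linarith
  have hk0 : (d : ℝ) - (2 * (d / L) + 5) ≤ k := by rw [hkr]; linarith
  have hnr : (n : ℝ) = (c : ℝ) * (c + 1) / 2 := by
    have h1 : n * 2 = (c + 1) * c := by
      have e1 : c + 2 - 1 = c + 1 := by omega
      have e2 : c + 2 - 2 = c := by omega
      rw [hn, e1, e2]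
      apply Nat.div_mul_cancel
      have := Nat.even_mul_succ_self c
      rw [mul_comm]
      exact this.two_dvd
    have h2 : (n : ℝ) * 2 = (c + 1) * c := by exact_mod_cast h1
    linarith
  set M := (d : ℝ) / (2 * L ^ 2) with hM
  have hM11 : 11 ≤ M := by
    rw [hM, le_div_iff₀ (by positivity)]
    linarith
  have hdM : (d : ℝ) * M ≤ n := by
    rw [hnr, hM]
    have h1 : (d : ℝ) * (d / (2 * L ^ 2)) = (d / L) ^ 2 / 2 := by
      field_simp
    rw [h1]
    have h2 : ((d : ℝ) / L) ^ 2 ≤ (c : ℝ) ^ 2 := by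
      apply pow_le_pow_left₀ (by positivity) hc1
    have h3 : (0 : ℝ) ≤ c := by positivity
    nlinarith
  have hkn : k ≤ n := by
    have : (k : ℝ) ≤ n := by
      have h1 : (k : ℝ) ≤ d := by exact_mod_cast hkd
      nlinarith
    exact_mod_cast this
  -- lower bound for the binomial coefficient
  have hch : (M / 1.1) ^ k ≤ (n.choose k : ℝ) := by
    have h1 := Nat.pow_le_choose (α := ℝ) k n
    have h2 : ((k.factorial : ℕ) : ℝ) ≤ (d : ℝ) ^ k := by
      have h3 := Nat.factorial_le_pow k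
      have h4 : (k ^ k : ℕ) ≤ d ^ k := Nat.pow_le_pow_left hkd k
      exact_mod_cast h3.trans h4
    have h5 : (d : ℝ) * (M / 1.1) ≤ ((n + 1 - k : ℕ) : ℝ) := by
      rw [Nat.cast_sub (by omega)]
      have h6 : (k : ℝ) ≤ d := by exact_mod_cast hkd
      push_cast
      have h7 : M / 1.1 ≤ M - 1 := by
        rw [div_le_iff₀ (by norm_num)]
        linarith
      have h8 : (d : ℝ) * (M / 1.1) ≤ d * (M - 1) := mul_le_mul_of_nonneg_left h7 hd0.le
      nlinarith
    have h9 : ((d : ℝ) * (M / 1.1)) ^ k ≤ (((n + 1 - k : ℕ) : ℝ)) ^ k :=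
      pow_le_pow_left₀ (by positivity) h5 k
    have hfp : (0 : ℝ) < (k.factorial : ℝ) := by exact_mod_cast Nat.factorial_pos k
    have h10 : (((n + 1 - k : ℕ) : ℝ)) ^ k ≤ (n.choose k : ℝ) * (k.factorial : ℝ) := by
      have := h1
      rw [div_le_iff₀ hfp] at this
      exact_mod_cast this
    have h11 : ((d : ℝ) * (M / 1.1)) ^ k ≤ (n.choose k : ℝ) * (d : ℝ) ^ k := by
      refine h9.trans (h10.trans ?_)
      exact mul_le_mul_of_nonneg_left h2 (by positivity)
    rw [mul_pow] at h11
    have hdk : (0 : ℝ) < (d : ℝ) ^ k := by positivity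
    rw [mul_comm] at h11
    exact le_of_mul_le_mul_right h11 hdk
  refine le_trans ?_ (le_trans hch (by exact_mod_cast hmain))
  -- comparison of the logarithms
  have hM0 : 0 < M := by linarith
  have hbase : (d : ℝ) / (20 * L ^ 2) = M / 10 := by
    rw [hM]; field_simp; norm_num
  rw [hbase]
  have hlog1 : 0 ≤ Real.log (M / 1.1) := Real.log_nonneg (by
    rw [le_div_iff₀ (by norm_num)]; linarith)
  have hlog2 : Real.log (M / 1.1) ≤ L := by
    rw [hLdef]
    apply Real.log_le_log (by positivity)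
    have h1 : M ≤ d := by
      rw [hM]
      exact div_le_self hd0.le (by nlinarith)
    have h2 : M / 1.1 ≤ M := div_le_self hM0.le (by norm_num)
    linarith
  have hlog3 : Real.log (M / 10) = Real.log (M / 1.1) - Real.log (100 / 11) := by
    rw [← Real.log_div (by positivity) (by norm_num)]
    congr 1
    field_simp
    norm_num
  rw [← Real.log_le_log_iff (by positivity) (by positivity), Real.log_pow, Real.log_pow, hlog3]
  have h1 : ((d : ℝ) - (2 * (d / L) + 5)) * Real.log (M / 1.1) ≤ k * Real.log (M / 1.1) :=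
    mul_le_mul_of_nonneg_right hk0 hlog1
  have h2 : (2 * ((d : ℝ) / L) + 5) * Real.log (M / 1.1) ≤ (2 * (d / L) + 5) * L :=
    mul_le_mul_of_nonneg_left hlog2 (by positivity)
  have h3 : (2 * ((d : ℝ) / L) + 5) * L = 2 * d + 5 * L := by
    field_simp
  have h4 := log_const
  have h5 : (d : ℝ) * 2.1 ≤ d * Real.log (100 / 11) := mul_le_mul_of_nonneg_left h4 hd0.le
  nlinarith

/-- Packet ASYM. -/
theorem stmtAsym : StmtAsym := by
  intro D hD
  have h1 : ∀ᶠ d : ℕ in atTop, (4 : ℝ) ≤ Real.log d :=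
    (Real.tendsto_log_atTop.comp tendsto_natCast_atTop_atTop).eventually_ge_atTop 4
  have h2 : ∀ᶠ d : ℕ in atTop, 22 * Real.log d ^ 2 ≤ (d : ℝ) := by
    have h3 := (Real.isLittleO_pow_log_id_atTop (n := 2)).bound (show (0 : ℝ) < 1 / 22 by norm_num)
    have h4 := tendsto_natCast_atTop_atTop (R := ℝ) |>.eventually h3
    filter_upwards [h4] with d hd
    simp only [id, Real.norm_eq_abs] at hd
    rw [abs_of_nonneg (by positivity), abs_of_nonneg (by positivity)] at hd
    linarith
  filter_upwards [h1, h2] with d hd1 hd2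
  exact single D hD d hd1 hd2

/-- Packet LOG. -/
theorem stmtLog : StmtLog := by
  intro D h1 h2
  have hL : Tendsto (fun d : ℕ => Real.log (d : ℝ)) atTop atTop :=
    Real.tendsto_log_atTop.comp tendsto_natCast_atTop_atTop
  -- `log L / L` tends to zero
  have hlogL : Tendsto (fun d : ℕ => Real.log (Real.log d) / Real.log d) atTop (nhds 0) := by
    have h3 : Tendsto (fun x : ℝ => Real.log x / x) atTop (nhds 0) :=
      Real.isLittleO_log_id_atTop.tendsto_div_nhds_zero
    exact h3.comp hL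
  have hinv : Tendsto (fun d : ℕ => (Real.log (d : ℝ))⁻¹) atTop (nhds 0) :=
    tendsto_inv_atTop_zero.comp hL
  have hlow : Tendsto (fun d : ℕ => 1 - (Real.log 20 * (Real.log (d : ℝ))⁻¹ +
      2 * (Real.log (Real.log d) / Real.log d))) atTop (nhds 1) := by
    have := ((hinv.const_mul (Real.log 20)).add (hlogL.const_mul 2)).const_sub 1
    simpa using this
  have hup : Tendsto (fun d : ℕ => 1 + Real.log 2 * (Real.log (d : ℝ))⁻¹) atTop (nhds 1) := by
    have := (hinv.const_mul (Real.log 2)).const_add 1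
    simpa using this
  refine tendsto_of_tendsto_of_tendsto_of_le_of_le' hlow hup ?_ ?_
  · filter_upwards [h1, hL.eventually_ge_atTop 1, eventually_ge_atTop 1] with d hd hLd hd1
    have hL0 : 0 < Real.log (d : ℝ) := by linarith
    have hd0 : (0 : ℝ) < d := by exact_mod_cast hd1
    have hb : 0 < (d : ℝ) / (20 * Real.log d ^ 2) := by positivity
    have h3 : d * Real.log ((d : ℝ) / (20 * Real.log d ^ 2)) ≤ Real.log (D d) := by
      rw [← Real.log_pow]
      exact Real.log_le_log (by positivity) hd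
    rw [Real.log_div hd0.ne' (by positivity), Real.log_mul (by norm_num) (by positivity),
      Real.log_pow] at h3
    rw [le_div_iff₀ (by positivity)]
    refine le_trans (le_of_eq ?_) h3
    push_cast
    field_simp
  · filter_upwards [h1, hL.eventually_ge_atTop 1, eventually_ge_atTop 1] with d hd hLd hd1
    have hL0 : 0 < Real.log (d : ℝ) := by linarith
    have hd0 : (0 : ℝ) < d := by exact_mod_cast hd1
    have hb : 0 < (d : ℝ) / (20 * Real.log d ^ 2) := by positivity
    have hDpos : (0 : ℝ) < D d := lt_of_lt_of_le (by positivity) hd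
    have h3 : (D d : ℝ) ≤ (2 * d : ℝ) ^ d := by
      have h4 := h2 d
      have h5 : d.factorial ≤ d ^ d := Nat.factorial_le_pow d
      have h6 : D d ≤ (2 * d) ^ d := by
        rw [mul_pow]
        exact h4.trans (Nat.mul_le_mul_left _ h5)
      exact_mod_cast h6
    have h4 : Real.log (D d) ≤ d * (Real.log 2 + Real.log d) := by
      refine (Real.log_le_log hDpos h3).trans (le_of_eq ?_)
      rw [Real.log_pow, Real.log_mul (by norm_num) hd0.ne']
    rw [div_le_iff₀ (by positivity)]
    refine h4.trans (le_of_eq ?_)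
    field_simp
    ring

end Pool.Agent.Helper32.AD
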